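import Pool.Agent.TH759.SMNeg

set_option autoImplicit false

/-!
Closed discrete subsets of regular strongly star-Menger spaces if `b = d = λ⁺` for a regular
cardinal `λ > ℵ₁`: they all have fewer than `d` elements. If moreover `cof([d]^ω) > d`, then the
negated form of Sakai's question holds.
-/

namespace Pool.Agent.Results.MP_d02fb9_lc.SuccessorOfRegular

open Cardinal Filter

/-- Strongly star-Menger spaces. -/
def StronglyStarMenger (X : Type) (t : TopologicalSpace X) : Prop :=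
  ∀ U : ℕ → Set (Set X), (∀ n, ∀ u ∈ U n, @IsOpen X t u) → (∀ n, ⋃₀ U n = Set.univ) →
    ∃ F : ℕ → Set X, (∀ n, (F n).Finite) ∧ ∀ x : X, ∃ n, ∃ u ∈ U n, x ∈ u ∧ (u ∩ F n).Nonempty

/-- `𝒞` is a family of countable subsets of `α` such that every countable subset of `α` is
contained in a member of `𝒞`. -/
def CofinalFamily {α : Type} (𝒞 : Set (Set α)) : Prop :=
  (∀ C ∈ 𝒞, C.Countable) ∧ ∀ A : Set α, A.Countable → ∃ C ∈ 𝒞, A ⊆ C

/-- `b ≥ κ`: every family of fewer than `κ` functions has an upper bound for eventual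
domination. -/
def BoundingAtLeast (κ : Cardinal.{0}) : Prop :=
  ∀ F : Set (ℕ → ℕ), #F < κ → ∃ g : ℕ → ℕ, ∀ f ∈ F, ∀ᶠ n in atTop, f n ≤ g n

/-- `d ≤ κ`: there is a dominating family of at most `κ` functions. -/
def DominatingAtMost (κ : Cardinal.{0}) : Prop :=
  ∃ F : Set (ℕ → ℕ), (∀ g : ℕ → ℕ, ∃ f ∈ F, ∀ᶠ n in atTop, g n ≤ f n) ∧ #F ≤ κ

/-- Sakai's equality `λ = μ`, written as in the frozen statement of the problem. -/
def SakaiEquality : Prop :=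
  ∀ μ : Cardinal.{0},
    (∃ F : Set (ℕ → ℕ), (∀ g : ℕ → ℕ, ∃ f ∈ F, ∀ᶠ n in Filter.atTop, g n ≤ f n) ∧ Cardinal.mk F ≤ μ) →
    μ ≤ Cardinal.continuum →
    (∀ α : Type, Cardinal.mk α = μ →
      ∃ 𝒞 : Set (Set α), (∀ C ∈ 𝒞, C.Countable) ∧ (∀ A : Set α, A.Countable → ∃ C ∈ 𝒞, A ⊆ C) ∧
        Cardinal.mk 𝒞 = μ ∧
        ∀ 𝒟 : Set (Set α), (∀ C ∈ 𝒟, C.Countable) → (∀ A : Set α, A.Countable → ∃ C ∈ 𝒟, A ⊆ C) →
          μ ≤ Cardinal.mk 𝒟) →
    (∀ ν : Cardinal.{0},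
      (∃ F : Set (ℕ → ℕ), (∀ g : ℕ → ℕ, ∃ f ∈ F, ∀ᶠ n in Filter.atTop, g n ≤ f n) ∧ Cardinal.mk F ≤ ν) →
      ν < μ →
      ∀ α : Type, Cardinal.mk α = ν →
        ¬ ∃ 𝒞 : Set (Set α), (∀ C ∈ 𝒞, C.Countable) ∧ (∀ A : Set α, A.Countable → ∃ C ∈ 𝒞, A ⊆ C) ∧
          Cardinal.mk 𝒞 = ν ∧
          ∀ 𝒟 : Set (Set α), (∀ C ∈ 𝒟, C.Countable) → (∀ A : Set α, A.Countable → ∃ C ∈ 𝒟, A ⊆ C) →
            ν ≤ Cardinal.mk 𝒟) →
    ((∀ X : Type, ∀ t : TopologicalSpace X, @T3Space X t →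
        (∀ U : ℕ → Set (Set X), (∀ n, ∀ u ∈ U n, @IsOpen X t u) → (∀ n, ⋃₀ U n = Set.univ) →
          ∃ F : ℕ → Set X, (∀ n, (F n).Finite) ∧
            ∀ x : X, ∃ n, ∃ u ∈ U n, x ∈ u ∧ (u ∩ F n).Nonempty) →
        ∀ D : Set X, @IsClosed X t D →
          @DiscreteTopology D (TopologicalSpace.induced (Subtype.val : D → X) t) →
          Cardinal.mk D < μ) ∧
     (∀ κ : Cardinal.{0}, κ < μ →
        ∃ X : Type, ∃ t : TopologicalSpace X, @T3Space X t ∧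
          (∀ U : ℕ → Set (Set X), (∀ n, ∀ u ∈ U n, @IsOpen X t u) → (∀ n, ⋃₀ U n = Set.univ) →
            ∃ F : ℕ → Set X, (∀ n, (F n).Finite) ∧
              ∀ x : X, ∃ n, ∃ u ∈ U n, x ∈ u ∧ (u ∩ F n).Nonempty) ∧
          ∃ D : Set X, @IsClosed X t D ∧
            @DiscreteTopology D (TopologicalSpace.induced (Subtype.val : D → X) t) ∧
            κ ≤ Cardinal.mk D))

/-- Let `b = d = λ⁺` for a regular cardinal `λ > ℵ₁`. Then every closed discrete subset of a regular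
`T₁` strongly star-Menger space has fewer than `d = λ⁺` elements. If moreover no family of `λ⁺`
countable subsets of `λ⁺` is cofinal, that is `cof([d]^ω) > d`, then Sakai's equality fails. -/
theorem result (lam : Cardinal.{0}) (hreg : lam.IsRegular) (h1 : aleph 1 < lam)
    (hb : BoundingAtLeast (Order.succ lam)) (hd : DominatingAtMost (Order.succ lam)) :
    (∀ (X : Type) (t : TopologicalSpace X), @T3Space X t → StronglyStarMenger X t →
      ∀ D : Set X, @IsClosed X t D →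
        @DiscreteTopology D (TopologicalSpace.induced (Subtype.val : D → X) t) →
        #D < Order.succ lam) ∧
    ((∀ α : Type, #α = Order.succ lam → ∀ 𝒞 : Set (Set α), CofinalFamily 𝒞 →
        Order.succ lam < #𝒞) → ¬ SakaiEquality) := by
  have hmain : ∀ (X : Type) (t : TopologicalSpace X), @T3Space X t → StronglyStarMenger X t →
      ∀ D : Set X, @IsClosed X t D →
        @DiscreteTopology D (TopologicalSpace.induced (Subtype.val : D → X) t) →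
        #D < Order.succ lam := by
    intro X t h3 hX D hD hdisc
    exact @Pool.Agent.TH759.SM.main_bound lam hreg h1 hb hd X t h3 hX D hD hdisc
  refine ⟨hmain, fun hcof hS => ?_⟩
  obtain ⟨μ, hμ1, hμ2, hμ3, hμ4⟩ :=
    Pool.Agent.TH759.SM.exists_min_FP Pool.Agent.TH759.SM.dLe_continuum
  have hle : Order.succ lam ≤ μ := Pool.Agent.TH759.SM.le_of_dLe hb hμ1
  have hlt : Order.succ lam < μ := by
    refine lt_of_le_of_ne hle fun h => ?_
    have h2 : #((Order.succ lam).out) = μ := (mk_out _).trans h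
    obtain ⟨𝒞, hC, hCc, -⟩ := hμ3 _ h2
    have := hcof _ (mk_out _) 𝒞 hC
    rw [hCc, h] at this
    exact lt_irrefl _ this
  obtain ⟨-, h5⟩ := hS μ hμ1 hμ2
    (fun α hα => by
      obtain ⟨𝒞, hC, hCc, h6⟩ := hμ3 α hα
      exact ⟨𝒞, hC.1, hC.2, hCc, fun 𝒟 h7 h8 => h6 𝒟 ⟨h7, h8⟩⟩)
    (fun ν hν hνμ α hα ⟨𝒞, hC1, hC2, hCc, h6⟩ =>
      hμ4 ν hν hνμ α hα ⟨𝒞, ⟨hC1, hC2⟩, hCc, fun 𝒟 h7 => h6 𝒟 h7.1 h7.2⟩)
  obtain ⟨X, t, h3, hX, D, hD, hdisc, hcard⟩ := h5 _ hlt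
  exact absurd (hmain X t h3 hX D hD hdisc) (not_lt.2 hcard)

end Pool.Agent.Results.MP_d02fb9_lc.SuccessorOfRegular
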